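import Pool.Agent.Lib_helper64.HYB.K4

set_option autoImplicit false

open Finset

namespace Pool.Agent.Results.MP_cf5f8b_an.Hybrid

open Pool.Agent.HYB
open Pool.Agent.Lib_helper93.QSim (DTree pr)

/-- **The Aaronson–Ambainis conjecture (polynomial bound) and the classical simulation with
polynomially many queries for hybrid quantum-classical algorithms.**

A hybrid algorithm (`Hybrid`) runs in `T` stages. A stage is a quantum query algorithm with `R`
rounds of `p` parallel queries, started from a fresh state and followed by a complete measurement
of its workspace; it depends in an arbitrary way on the record `h` of the outcomes of all earlier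
stages (and on hidden randomness: mixed initial states, noise). `H.prob R T [] x` is the acceptance
probability on the input `x ∈ {-1,1}^I`, a polynomial of degree at most `2 n` in the bits of `x`,
where `n = T R p` is the number of the queries.

Let every stage be of one of the following three kinds (the kind may depend on the record):
* `Short`: the input is queried in the first `r` rounds of the stage only; in particular, every
  stage with one round of parallel queries (`r = 1`) and every classical query;
* `Clean`: the workspace consists of `k` clean qubits and of maximally mixed ones;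
* `Noisy`: before the queries of each round the depolarizing noise of rate `lam` acts on the
  address qubits of the queries.

Put `B(X) = 2^20 n^6 (16 n)^(2 (r - 1) p) / X` (`bound`) and
`u = max 2 (1 / log₂ (1 / (1 - lam / 2)))`.

* If the acceptance probability has the variance `v > 0` then some coordinate has influence at
  least `1 / (2^(4 k) B(v^2)^(4 u + 2))`.
* For `0 < ε, δ ≤ 1` a classical decision tree of depth at most `2^(2 k) B(ε^4 δ^2)^(2 u + 1)`
  computes the acceptance probability up to `ε` for all but a fraction `δ` of the inputs.

So the bounds are polynomial in `n`, `1 / v` (or `1 / ε`, `1 / δ`) and `2^k` for every fixed noise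
rate `lam` and every fixed number `(r - 1) p` of the queries in the later rounds of short stages. -/
theorem result (I A E : Type) [Fintype I] [DecidableEq I] [Fintype A] [Fintype E]
    (T R p r k : ℕ) (lam : ℝ) (hn : 1 ≤ T * R * p) (hlam : 0 < lam) (hlam' : lam ≤ 1)
    (H : Hybrid I A E p) (hH : ∀ h, H.Short R r h ∨ H.Clean k h ∨ H.Noisy R lam h) :
    (∀ v : ℝ, 0 < v → variance (H.prob R T []) = v →
      ∃ i, 1 / (2 ^ (4 * k) * bound T R p r (v ^ 2) ^
          (4 * max 2 (1 / Real.logb 2 (1 / (1 - lam / 2))) + 2)) ≤
        influence (H.prob R T []) i) ∧
    (∀ ε δ : ℝ, 0 < ε → ε ≤ 1 → 0 < δ → δ ≤ 1 →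
      ∃ t : DTree I ℝ,
        (t.depth : ℝ) ≤ 2 ^ (2 * k) * bound T R p r (ε ^ 4 * δ ^ 2) ^
          (2 * max 2 (1 / Real.logb 2 (1 / (1 - lam / 2))) + 1) ∧
        pr {x | ε < |H.prob R T [] x - t.eval x|} ≤ δ) :=
  ⟨fun _ hv hvar => k4_infl H hn hlam hlam' hH hv hvar (le_max_left _ _) (le_max_right _ _),
    fun _ _ hε hε1 hδ hδ1 => k4_sim H hn hlam hlam' hH hε hε1 hδ hδ1 (le_max_left _ _)
      (le_max_right _ _)⟩

end Pool.Agent.Results.MP_cf5f8b_an.Hybrid
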