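import Pool.Agent.Lib_helper30.AA.RidgeMain

set_option autoImplicit false

open Finset

namespace Pool.Agent.Lib_helper30.Superseded.LinearForms

/-- **The Aaronson–Ambainis inequality for polynomials of linear forms with disjoint supports.**

The coordinates `I` are split into `k` blocks by `κ : I → Fin k`, and each block carries a linear
form `L_v(x) = ∑_{κ i = v} a_i x_i` with arbitrary real coefficients. Let
`f = F(L_1, …, L_k)` be bounded by one on the cube, where the degree of the polynomial `F` in its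
`v`-th variable is at most the number of nonzero coefficients of `L_v`, or at most `d` (without
such a restriction every function on the cube is a polynomial of a single linear form). If `f` has
Fourier degree at most `d`, then some coordinate has influence at least
`2^{-28} (Var f / (k d))^{10}`.

For `k = 1` this is the Aaronson–Ambainis inequality for all bounded polynomials of one linear form
(with all coefficients equal it is the case of symmetric functions). -/
theorem result (k : ℕ) (I : Type) [Fintype I] [DecidableEq I] [Nonempty I] (κ : I → Fin k)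
    (a : I → ℝ) (F : MvPolynomial (Fin k) ℝ) (f : (I → Bool) → ℝ)
    (hfF : ∀ x : I → Bool, f x = MvPolynomial.eval
      (fun v => ∑ i ∈ univ.filter (fun i => κ i = v), a i * (-1 : ℝ) ^ (x i).toNat) F)
    (hf : ∀ x, |f x| ≤ 1) (d : ℕ)
    (hF : ∀ v : Fin k, F.degreeOf v ≤ max d (univ.filter (fun i => κ i = v ∧ a i ≠ 0)).card)
    (hdeg : ∀ S : Finset I, d < S.card →
      ∑ x : I → Bool, f x * ∏ i ∈ S, (-1 : ℝ) ^ (x i).toNat = 0) :
    ∃ j : I,
      1 / 2 ^ 28 *
        ((((2 : ℝ) ^ Fintype.card I)⁻¹ * ∑ x : I → Bool, f x ^ 2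
          - (((2 : ℝ) ^ Fintype.card I)⁻¹ * ∑ x : I → Bool, f x) ^ 2) / ((k : ℝ) * d)) ^ 10 ≤
      ((2 : ℝ) ^ Fintype.card I)⁻¹ * ∑ x : I → Bool,
        ((f x - f (Function.update x j (!x j))) / 2) ^ 2 := by
  have hinfl : ∀ j : I, 0 ≤ ((2 : ℝ) ^ Fintype.card I)⁻¹ * ∑ x : I → Bool,
      ((f x - f (Function.update x j (!x j))) / 2) ^ 2 := fun j => by positivity
  set η : ℝ := ((2 : ℝ) ^ Fintype.card I)⁻¹ * ∑ x : I → Bool, f x ^ 2
    - (((2 : ℝ) ^ Fintype.card I)⁻¹ * ∑ x : I → Bool, f x) ^ 2 with hη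
  have hη2 := Lib_helper30.AA.variance_eq f
  rw [← hη] at hη2
  have hη0 : 0 ≤ η := by
    rw [hη2]
    exact Finset.sum_nonneg fun _ _ => sq_nonneg _
  rcases Nat.eq_zero_or_pos d with hd | hd
  · obtain ⟨j⟩ := (inferInstance : Nonempty I)
    refine ⟨j, ?_⟩
    subst hd
    rw [Nat.cast_zero, mul_zero, div_zero, zero_pow (by omega), mul_zero]
    exact hinfl j
  rcases hη0.eq_or_lt with hη1 | hη1
  · obtain ⟨j⟩ := (inferInstance : Nonempty I)
    refine ⟨j, ?_⟩
    rw [← hη1, zero_div, zero_pow (by omega), mul_zero]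
    exact hinfl j
  have hη_le : η ≤ 1 := by
    rw [hη2]
    simpa using Lib_helper30.AA.sum_coef_sq_le hf _
  have hdeg' : ∀ S : Finset I, d < S.card → Lib_helper30.AA.coef f S = 0 := by
    intro S hS
    unfold Lib_helper30.AA.coef
    have := hdeg S hS
    unfold Lib_helper30.AA.chi
    rw [this, mul_zero]
  have hF' : ∀ v : Fin k, F.degreeOf v ≤
      max d ((Lib_helper30.AA.blk κ v).filter (fun i => a i ≠ 0)).card := by
    intro v
    refine (hF v).trans (le_of_eq ?_)
    congr 2
    unfold Lib_helper30.AA.blk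
    rw [Finset.filter_filter]
  obtain ⟨j, hj⟩ := Lib_helper30.AA.ridge_fourier κ a F f hfF hf d hd hF' hdeg' hη1 hη2
  refine ⟨j, ?_⟩
  rw [Lib_helper30.AA.influence_eq]
  refine le_trans ?_ hj
  have hkpos : 0 < k := Fin.pos (κ j)
  have hk : (1 : ℝ) ≤ k := by exact_mod_cast hkpos
  have hd' : (1 : ℝ) ≤ d := by exact_mod_cast hd
  have h2 : η ^ 10 ≤ η ^ 7 := pow_le_pow_of_le_one hη1.le hη_le (by omega)
  have h3 : (k : ℝ) ^ 7 ≤ (k : ℝ) ^ 10 := pow_le_pow_right₀ hk (by omega)
  have hk0 : (0 : ℝ) < k := by linarith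
  have hd0 : (0 : ℝ) < d := by linarith
  calc 1 / 2 ^ 28 * (η / ((k : ℝ) * d)) ^ 10
      = η ^ 10 / (2 ^ 28 * (k : ℝ) ^ 10 * (d : ℝ) ^ 10) := by
        rw [div_pow, mul_pow]
        field_simp
    _ ≤ η ^ 7 / (2 ^ 28 * (k : ℝ) ^ 7 * (d : ℝ) ^ 10) := by gcongr

end Pool.Agent.Lib_helper30.Superseded.LinearForms
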