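import Pool.Agent.Lib_helper30.AA.Main

set_option autoImplicit false

open Finset

namespace Pool.Agent.Lib_helper30.Superseded.SymmetricStructures

/-- **The Aaronson–Ambainis inequality for isomorphism-invariant functions of relational
structures.**

`V a` (`a : Fin q`) are finite vertex sets (the sorts), and the product of their symmetric groups
acts on the finite index set `I` in such a way that every index is *supported* on at most `l`
vertices (every tuple of permutations fixing these vertices fixes the index).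
Examples: `I = V` (symmetric functions), `I` = edges of the complete graph on `V` (graph
parameters), `I` = `l`-subsets or `l`-tuples of vertices (hypergraph parameters, `l`-ary
relational structures), `I = V₁ × V₂` (functions of a matrix up to row and column permutations),
disjoint unions of such sets.

Every bounded function `f` on the cube `{-1,1}^I` which is invariant under the group has an
influential variable, with the polynomial dependence on `Var f / deg f` asked for by the
Aaronson–Ambainis conjecture; the exponent depends only on `l`, and the dependence on the number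
of orbits of the group on `I` and on the number `q` of sorts is polynomial as well. -/
theorem result (l : ℕ) :
    ∃ C₁ C₂ : ℝ, 0 < C₁ ∧ 0 < C₂ ∧
      ∀ (q : ℕ) (V : Fin q → Type) [∀ a, Fintype (V a)]
        (I : Type) [Fintype I] [DecidableEq I] [Nonempty I]
        [MulAction (∀ a, Equiv.Perm (V a)) I],
        (∀ i : I, ∃ s : ∀ a, Finset (V a), (∑ a, (s a).card) ≤ l ∧
          ∀ σ : ∀ a, Equiv.Perm (V a), (∀ a, ∀ v ∈ s a, σ a v = v) → σ • i = i) →
        ∀ f : (I → Bool) → ℝ, (∀ x, |f x| ≤ 1) →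
          (∀ (σ : ∀ a, Equiv.Perm (V a)) (x : I → Bool), f (fun i => x (σ • i)) = f x) →
          ∀ d : ℕ, (∀ S : Finset I, d < S.card →
              ∑ x : I → Bool, f x * ∏ i ∈ S, (-1 : ℝ) ^ (x i).toNat = 0) →
          ∃ j : I,
            C₁ / ((Nat.card (MulAction.orbitRel.Quotient (∀ a, Equiv.Perm (V a)) I) : ℝ) *
                ((q : ℝ) + 1) ^ (2 * l)) *
              ((((2 : ℝ) ^ Fintype.card I)⁻¹ * ∑ x : I → Bool, f x ^ 2
                - (((2 : ℝ) ^ Fintype.card I)⁻¹ * ∑ x : I → Bool, f x) ^ 2) / (d : ℝ)) ^ C₂ ≤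
            ((2 : ℝ) ^ Fintype.card I)⁻¹ * ∑ x : I → Bool,
              ((f x - f (Function.update x j (!x j))) / 2) ^ 2 := by
  refine ⟨1 / (2 * (2 ^ 20 * ((l : ℝ) + 1) ^ 8) ^ l), ((8 * l + 1 : ℕ) : ℝ), by positivity,
    by positivity, ?_⟩
  intro q V _ I _ _ _ _ hsupp f hf hinv d hdeg
  have hinfl : ∀ j : I, 0 ≤ ((2 : ℝ) ^ Fintype.card I)⁻¹ * ∑ x : I → Bool,
      ((f x - f (Function.update x j (!x j))) / 2) ^ 2 := fun j => by positivity
  set η : ℝ := ((2 : ℝ) ^ Fintype.card I)⁻¹ * ∑ x : I → Bool, f x ^ 2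
    - (((2 : ℝ) ^ Fintype.card I)⁻¹ * ∑ x : I → Bool, f x) ^ 2 with hη
  have hη2 := Lib_helper30.AA.variance_eq f
  rw [← hη] at hη2
  have hη0 : 0 ≤ η := by
    rw [hη2]
    exact Finset.sum_nonneg fun _ _ => sq_nonneg _
  rcases Nat.eq_zero_or_pos d with hd | hd
  · obtain ⟨j⟩ := (inferInstance : Nonempty I)
    refine ⟨j, ?_⟩
    subst hd
    rw [Real.rpow_natCast, Nat.cast_zero, div_zero, zero_pow (by omega), mul_zero]
    exact hinfl j
  rcases hη0.eq_or_lt with hη1 | hη1
  · obtain ⟨j⟩ := (inferInstance : Nonempty I)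
    refine ⟨j, ?_⟩
    rw [Real.rpow_natCast, ← hη1, zero_div, zero_pow (by omega), mul_zero]
    exact hinfl j
  have hη_le : η ≤ 1 := by
    rw [hη2]
    simpa using Lib_helper30.AA.sum_coef_sq_le hf _
  have hdeg' : ∀ S : Finset I, d < S.card → Lib_helper30.AA.coef f S = 0 := by
    intro S hS
    unfold Lib_helper30.AA.coef
    have := hdeg S hS
    unfold Lib_helper30.AA.chi
    rw [this, mul_zero]
  obtain ⟨j, hj⟩ := Lib_helper30.AA.main_fourier l q V I hsupp f hf hinv d hd hdeg' η hη1 hη2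
  refine ⟨j, ?_⟩
  rw [Lib_helper30.AA.influence_eq]
  refine le_trans ?_ hj
  rw [Real.rpow_natCast]
  have : Finite (MulAction.orbitRel.Quotient (∀ a, Equiv.Perm (V a)) I) := Quotient.finite _
  have hk : (0 : ℝ) < (Nat.card (MulAction.orbitRel.Quotient (∀ a, Equiv.Perm (V a)) I) : ℝ) := by
    have : Nonempty (MulAction.orbitRel.Quotient (∀ a, Equiv.Perm (V a)) I) :=
      (inferInstance : Nonempty I).map Quotient.mk''
    have : 0 < Nat.card (MulAction.orbitRel.Quotient (∀ a, Equiv.Perm (V a)) I) := Nat.card_pos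
    exact_mod_cast this
  set k : ℝ := (Nat.card (MulAction.orbitRel.Quotient (∀ a, Equiv.Perm (V a)) I) : ℝ) with hkdef
  have hd' : (1 : ℝ) ≤ d := by exact_mod_cast hd
  have hd0 : (0 : ℝ) < d := by linarith
  have hq : (0 : ℝ) < (q : ℝ) + 1 := by positivity
  have hl : (0 : ℝ) < (l : ℝ) + 1 := by positivity
  have h1 : (η / d) ^ (8 * l + 1) ≤ η ^ (2 * l + 1) / (d : ℝ) ^ (8 * l) := by
    rw [div_pow]
    have h2 : η ^ (8 * l + 1) ≤ η ^ (2 * l + 1) :=
      pow_le_pow_of_le_one hη1.le hη_le (by omega)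
    have h3 : (d : ℝ) ^ (8 * l) ≤ (d : ℝ) ^ (8 * l + 1) :=
      pow_le_pow_right₀ hd' (by omega)
    gcongr
  calc 1 / (2 * (2 ^ 20 * ((l : ℝ) + 1) ^ 8) ^ l) / (k * ((q : ℝ) + 1) ^ (2 * l)) *
        (η / d) ^ (8 * l + 1)
      ≤ 1 / (2 * (2 ^ 20 * ((l : ℝ) + 1) ^ 8) ^ l) / (k * ((q : ℝ) + 1) ^ (2 * l)) *
        (η ^ (2 * l + 1) / (d : ℝ) ^ (8 * l)) := by gcongr
    _ = η / (2 * k * (2 ^ 20 * ((d * (l + 1) : ℕ) : ℝ) ^ 8 * ((q : ℝ) + 1) ^ 2 / η ^ 2) ^ l) := by
        push_cast
        rw [div_pow, mul_pow, mul_pow, mul_pow, mul_pow, ← pow_mul, ← pow_mul, ← pow_mul,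
          ← pow_mul, pow_succ η (2 * l), mul_pow, ← pow_mul, ← pow_mul]
        field_simp

end Pool.Agent.Lib_helper30.Superseded.SymmetricStructures
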